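import Pool.Agent.H466.HD.SA

/-!
# Project HD (helper466), task L2: the local average of `D M conj(P)` and its coefficients
-/

set_option autoImplicit false

namespace Pool.Agent.H115.HD

open Complex MeasureTheory Set Filter Topology
open scoped ComplexConjugate
open Pool.Agent.H477.E (MT bc Nn)
open Pool.Agent.H448R2.GC (cu fs cu_one cu_zero)
open Pool.Agent.H466.HD

noncomputable section

/-! ## The coefficients -/

lemma bc_one {θ L : ℝ} (hθ : 0 < θ) (hL : 0 < L) : bc θ L 0 1 = 1 := by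
  unfold Pool.Agent.H477.E.bc
  rw [cu_one 5 _ _ (by positivity) (by simp; positivity)]
  simp

lemma bc_gt {θ L : ℝ} (hθ : 0 < θ) (hL : 0 < L) {m : ℕ} (hm : Nn θ L < m) : bc θ L 0 m = 0 := by
  unfold Pool.Agent.H477.E.bc
  unfold Pool.Agent.H477.E.Nn at hm
  have h1 : Real.exp (θ * L + (5 : ℕ) * (θ * L / 5)) < m := (Nat.floor_lt (Real.exp_pos _).le).mp hm
  have h2 : θ * L + (5 : ℕ) * (θ * L / 5) < Real.log m :=
    (Real.lt_log_iff_exp_lt ((Real.exp_pos _).trans h1)).mpr h1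
  rw [cu_zero 5 _ _ (by positivity) (by linarith)]
  simp

lemma Nn_pos {θ L : ℝ} (hθ : 0 < θ) (hL : 0 < L) : 1 ≤ Nn θ L := by
  unfold Pool.Agent.H477.E.Nn
  rw [Nat.one_le_floor_iff]
  exact Real.one_le_exp (by positivity)

lemma Nn_le {θ L : ℝ} : (Nn θ L : ℝ) ≤ Real.exp (2 * θ * L) := by
  unfold Pool.Agent.H477.E.Nn
  refine (Nat.floor_le (Real.exp_pos _).le).trans ?_
  apply Real.exp_le_exp.mpr
  push_cast
  linarith

section cf

variable {β : ℝ → ℝ} {k : ℝ → ℂ} {C0 : ℝ} {ε L c w θ : ℝ}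

lemma beta_hi (hB : Bump β k C0) (hw : 0 < w) {x : ℝ} (hx : c + w ≤ x) : β ((x - c) / w) = 0 := by
  apply hB.supp
  have : 1 ≤ (x - c) / w := by
    rw [le_div_iff₀ hw]
    linarith
  exact this.trans (le_abs_self _)

lemma beta_lo (hB : Bump β k C0) (hw : 0 < w) {x : ℝ} (hx : x ≤ c - w) : β ((x - c) / w) = 0 := by
  apply hB.supp
  have : 1 ≤ -((x - c) / w) := by
    rw [← neg_div, le_div_iff₀ hw]
    linarith
  exact this.trans (neg_le_abs _)

lemma cf_prime (hB : Bump β k C0) (hθ : 0 < θ) (hL : 0 < L) (hw : 0 < w) (hc : 0 ≤ c - w) {p : ℕ}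
    (hp : p.Prime) : cf θ L β c w p = (β ((Real.log p - c) / w) : ℂ) := by
  unfold cf
  have hp0 : (p : ℝ) ≠ 0 := by exact_mod_cast hp.ne_zero
  rw [hp.divisors, Finset.sum_pair hp.one_lt.ne, bc_one hθ hL, div_self hp0, Real.log_one,
    beta_lo hB hw hc]
  simp

lemma cf_gt (hB : Bump β k C0) (hθ : 0 < θ) (hL : 0 < L) (hw : 0 < w) {j : ℕ}
    (hj : N0 θ L c w < j) : cf θ L β c w j = 0 := by
  unfold cf
  apply Finset.sum_eq_zero
  intro m hm
  have hmj := Nat.dvd_of_mem_divisors hm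
  have hj0 : j ≠ 0 := by omega
  have hm0 : 0 < m := Nat.pos_of_mem_divisors hm
  by_cases h : Nn θ L < m
  · rw [bc_gt hθ hL h, zero_mul]
  · have h1 : ⌊Real.exp (c + w)⌋₊ < j / m := by
      by_contra hcon
      push Not at hcon
      have h3 : j = j / m * m := (Nat.div_mul_cancel hmj).symm
      have h4 : j / m * m ≤ ⌊Real.exp (c + w)⌋₊ * Nn θ L := Nat.mul_le_mul hcon (by omega)
      unfold N0 at hj
      omega
    have h2 : Real.exp (c + w) < ((j / m : ℕ) : ℝ) := (Nat.floor_lt (Real.exp_pos _).le).mp h1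
    rw [Nat.cast_div hmj (by exact_mod_cast hm0.ne')] at h2
    have h3 : c + w ≤ Real.log ((j : ℝ) / m) := by
      rw [Real.le_log_iff_exp_le ((Real.exp_pos _).trans h2)]
      exact h2.le
    rw [beta_hi hB hw h3]
    simp

end cf

/-! ## Expansion of the product -/

/-- real powers on the critical line -/
lemma ncpow {n : ℕ} (hn : 1 ≤ n) (y : ℝ) : (n : ℂ) ^ (-(1 / 2 + (y : ℂ) * I)) =
    (((Real.sqrt n)⁻¹ : ℝ) : ℂ) * cexp (-(I * (Real.log n : ℝ) * y)) := by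
  have hn0 : (0 : ℝ) < n := by exact_mod_cast hn
  have hne : (n : ℂ) ≠ 0 := by exact_mod_cast (by omega : n ≠ 0)
  have h1 : (Real.sqrt n)⁻¹ = Real.exp (-(Real.log n / 2)) := by
    rw [Real.exp_neg, ← Real.log_sqrt hn0.le, Real.exp_log (Real.sqrt_pos.mpr hn0)]
  rw [Complex.cpow_def_of_ne_zero hne, h1, Complex.ofReal_exp, ← Complex.exp_add,
    ← Complex.natCast_log]
  congr 1
  push_cast
  ring

lemma conj_ncpow {n : ℕ} (hn : 1 ≤ n) (y : ℝ) : conj ((n : ℂ) ^ (-(1 / 2 + (y : ℂ) * I))) =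
    (((Real.sqrt n)⁻¹ : ℝ) : ℂ) * cexp (I * (Real.log n : ℝ) * y) := by
  rw [ncpow hn, map_mul, Complex.conj_ofReal, ← Complex.exp_conj]
  congr 2
  rw [map_neg, map_mul, map_mul, Complex.conj_ofReal, Complex.conj_ofReal, Complex.conj_I]
  ring

lemma Mt_eq (θ T y : ℝ) : Mt θ T y =
    ∑ m ∈ Finset.Icc 1 (Nn θ (Real.log T)), bc θ (Real.log T) 0 m * (m : ℂ) ^ (-(1 / 2 + (y : ℂ) * I)) := by
  unfold Mt Pool.Agent.H477.E.MT Pool.Agent.H448R2.GC.fs Pool.Agent.H477.E.Nn Pool.Agent.H477.E.bc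
  refine Finset.sum_congr rfl fun n hn => ?_
  simp

lemma DM_eq {β : ℝ → ℝ} {k : ℝ → ℂ} {C0 c w θ T : ℝ} (hB : Bump β k C0) (hθ : 0 < θ)
    (hL : 0 < Real.log T) (hw : 0 < w) (y : ℝ) : Dn β c w y * Mt θ T y =
    ∑ j ∈ Finset.Icc 1 (N0 θ (Real.log T) c w),
      cf θ (Real.log T) β c w j * (j : ℂ) ^ (-(1 / 2 + (y : ℂ) * I)) := by
  rw [Mt_eq]
  unfold Dn
  rw [Finset.sum_mul_sum, ← Finset.sum_product']
  set E := ⌊Real.exp (c + w)⌋₊ with hE
  set N := Nn θ (Real.log T) with hN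
  have hmaps : ∀ x ∈ Finset.Icc 1 E ×ˢ Finset.Icc 1 N, x.1 * x.2 ∈ Finset.Icc 1 (N0 θ (Real.log T) c w) := by
    intro x hx
    rw [Finset.mem_product, Finset.mem_Icc, Finset.mem_Icc] at hx
    rw [Finset.mem_Icc]
    refine ⟨Nat.mul_pos hx.1.1 hx.2.1, ?_⟩
    unfold N0
    exact Nat.mul_le_mul hx.1.2 hx.2.2
  rw [← Finset.sum_fiberwise_of_maps_to hmaps]
  refine Finset.sum_congr rfl fun j hj => ?_
  have hj1 := (Finset.mem_Icc.mp hj).1
  unfold cf
  rw [Finset.sum_mul]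
  symm
  rw [← Finset.sum_filter_of_ne (s := j.divisors) (p := fun m => m ≤ N ∧ j / m ≤ E)]
  · refine Finset.sum_nbij' (fun m => (j / m, m)) (fun x => x.2) ?_ ?_ ?_ ?_ ?_
    · intro m hm
      rw [Finset.mem_filter] at hm
      have hmj := Nat.dvd_of_mem_divisors hm.1
      have hm0 : 0 < m := Nat.pos_of_mem_divisors hm.1
      rw [Finset.mem_filter, Finset.mem_product, Finset.mem_Icc, Finset.mem_Icc]
      refine ⟨⟨⟨?_, hm.2.2⟩, hm0, hm.2.1⟩, Nat.div_mul_cancel hmj⟩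
      exact Nat.div_pos (Nat.le_of_dvd hj1 hmj) hm0
    · intro x hx
      rw [Finset.mem_filter, Finset.mem_product, Finset.mem_Icc, Finset.mem_Icc] at hx
      obtain ⟨⟨⟨h1, h2⟩, h3, h4⟩, h5⟩ := hx
      rw [Finset.mem_filter, Nat.mem_divisors]
      refine ⟨⟨⟨x.1, by rw [← h5, mul_comm]⟩, by omega⟩, h4, ?_⟩
      rw [← h5, Nat.mul_div_cancel _ h3]
      exact h2
    · intro m hm
      rfl
    · intro x hx
      rw [Finset.mem_filter, Finset.mem_product, Finset.mem_Icc, Finset.mem_Icc] at hx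
      obtain ⟨⟨⟨h1, h2⟩, h3, h4⟩, h5⟩ := hx
      have : j / x.2 = x.1 := by rw [← h5, Nat.mul_div_cancel _ h3]
      exact Prod.ext this rfl
    · intro m hm
      rw [Finset.mem_filter] at hm
      have hmj := Nat.dvd_of_mem_divisors hm.1
      have hm0 : 0 < m := Nat.pos_of_mem_divisors hm.1
      have h6 : (j : ℂ) ^ (-(1 / 2 + (y : ℂ) * I)) = ((j / m : ℕ) : ℂ) ^ (-(1 / 2 + (y : ℂ) * I)) *
          (m : ℂ) ^ (-(1 / 2 + (y : ℂ) * I)) := by
        rw [← Complex.natCast_mul_natCast_cpow, ← Nat.cast_mul, Nat.div_mul_cancel hmj]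
      have h7 : ((j : ℝ) / (m : ℝ)) = ((j / m : ℕ) : ℝ) :=
        (Nat.cast_div hmj (by exact_mod_cast hm0.ne')).symm
      rw [h6, h7]
      ring
  · intro m hm hne
    have hmj := Nat.dvd_of_mem_divisors hm
    have hm0 : 0 < m := Nat.pos_of_mem_divisors hm
    constructor
    · by_contra h
      apply hne
      rw [bc_gt hθ hL (by omega), zero_mul, zero_mul]
    · by_contra h
      apply hne
      have h2 : Real.exp (c + w) < ((j / m : ℕ) : ℝ) :=
        (Nat.floor_lt (Real.exp_pos _).le).mp (by omega)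
      rw [Nat.cast_div hmj (by exact_mod_cast hm0.ne')] at h2
      have h3 : c + w ≤ Real.log ((j : ℝ) / m) := by
        rw [Real.le_log_iff_exp_le ((Real.exp_pos _).trans h2)]
        exact h2.le
      rw [beta_hi hB hw h3]
      simp

/-! ## The Gaussian average -/

lemma gauss_eq {w0 : ℝ} (hw0 : 0 < w0) (lam t y : ℝ) :
    cexp (-(I * lam * y)) * (Real.exp (-(y - t) ^ 2 / (2 * w0 ^ 2)) : ℂ) =
      cexp ((-(1 / (2 * w0 ^ 2)) : ℝ) * (y : ℂ) ^ 2 + ((t / w0 ^ 2 : ℝ) - I * lam) * y +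
        ((-(t ^ 2 / (2 * w0 ^ 2)) : ℝ) : ℂ)) := by
  rw [Complex.ofReal_exp, ← Complex.exp_add]
  congr 1
  push_cast
  have : (w0 : ℂ) ≠ 0 := by exact_mod_cast hw0.ne'
  field_simp
  ring

lemma gauss_int {w0 : ℝ} (hw0 : 0 < w0) (lam t : ℝ) :
    Integrable fun y : ℝ => cexp (-(I * lam * y)) * (Real.exp (-(y - t) ^ 2 / (2 * w0 ^ 2)) : ℂ) := by
  simp_rw [gauss_eq hw0]
  apply integrable_cexp_quadratic'
  rw [Complex.ofReal_re]
  have : 0 < 1 / (2 * w0 ^ 2) := by positivity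
  linarith

lemma gauss_val {w0 : ℝ} (hw0 : 0 < w0) (lam t : ℝ) :
    ∫ y : ℝ, cexp (-(I * lam * y)) * (Real.exp (-(y - t) ^ 2 / (2 * w0 ^ 2)) : ℂ) =
      ((w0 * Real.sqrt (2 * Real.pi) : ℝ) : ℂ) *
        ((Real.exp (-(w0 ^ 2 * lam ^ 2 / 2)) : ℂ) * cexp (-(I * lam * t))) := by
  simp_rw [gauss_eq hw0]
  rw [integral_cexp_quadratic (by
    rw [Complex.ofReal_re]
    have : 0 < 1 / (2 * w0 ^ 2) := by positivity
    linarith)]
  have h0 : (w0 : ℂ) ≠ 0 := by exact_mod_cast hw0.ne'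
  have h1 : ((Real.pi : ℂ) / -((-(1 / (2 * w0 ^ 2)) : ℝ) : ℂ)) ^ (1 / 2 : ℂ) =
      ((w0 * Real.sqrt (2 * Real.pi) : ℝ) : ℂ) := by
    have e1 : ((Real.pi : ℂ) / -((-(1 / (2 * w0 ^ 2)) : ℝ) : ℂ)) = ((w0 ^ 2 * (2 * Real.pi) : ℝ) : ℂ) := by
      push_cast
      field_simp
    have e2 : (1 / 2 : ℂ) = ((1 / 2 : ℝ) : ℂ) := by push_cast; ring
    rw [e1, e2, ← Complex.ofReal_cpow (by positivity), ← Real.sqrt_eq_rpow,
      Real.sqrt_mul (by positivity), Real.sqrt_sq hw0.le]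
  rw [h1, Complex.ofReal_exp, ← Complex.exp_add]
  congr 2
  push_cast
  field_simp
  ring_nf
  rw [Complex.I_sq]
  ring

/-- local average of an exponential polynomial -/
lemma Gav_sum {w0 : ℝ} (hw0 : 0 < w0) {ι : Type} (s : Finset ι) (a : ι → ℂ) (lam : ι → ℝ) (t : ℝ) :
    Gav w0 (fun y => ∑ i ∈ s, a i * cexp (-(I * lam i * y))) t =
      ∑ i ∈ s, a i * (Real.exp (-(w0 ^ 2 * lam i ^ 2 / 2)) : ℂ) * cexp (-(I * lam i * t)) := by
  unfold Gav
  have h1 : ∀ y : ℝ, (∑ i ∈ s, a i * cexp (-(I * lam i * y))) *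
      (Real.exp (-(y - t) ^ 2 / (2 * w0 ^ 2)) : ℂ) =
      ∑ i ∈ s, a i * (cexp (-(I * lam i * y)) * (Real.exp (-(y - t) ^ 2 / (2 * w0 ^ 2)) : ℂ)) := by
    intro y
    rw [Finset.sum_mul]
    refine Finset.sum_congr rfl fun i _ => ?_
    ring
  simp_rw [h1]
  rw [integral_finsetSum _ (fun i _ => (gauss_int hw0 (lam i) t).const_mul (a i)), Finset.mul_sum]
  refine Finset.sum_congr rfl fun i _ => ?_
  rw [integral_const_mul, gauss_val hw0]
  have h2 : (((1 / (w0 * Real.sqrt (2 * Real.pi)) : ℝ) : ℂ)) *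
      ((w0 * Real.sqrt (2 * Real.pi) : ℝ) : ℂ) = 1 := by
    rw [← Complex.ofReal_mul, one_div, inv_mul_cancel₀ (by positivity), Complex.ofReal_one]
  linear_combination (a i * ((Real.exp (-(w0 ^ 2 * lam i ^ 2 / 2)) : ℂ) * cexp (-(I * lam i * t)))) * h2

/-! ## The tested product -/

/-- coefficient of a pair -/
def ak (θ L : ℝ) (β : ℝ → ℝ) (c w : ℝ) (x : ℕ × ℕ) : ℂ :=
  cf θ L β c w x.1 * (β ((Real.log x.2 - c) / w) : ℂ) *
    (((Real.sqrt x.1)⁻¹ * (Real.sqrt x.2)⁻¹ : ℝ) : ℂ)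

/-- frequency of a pair -/
def lk (x : ℕ × ℕ) : ℝ := Real.log x.1 - Real.log x.2

lemma Pb_one {c w : ℝ} {p : ℕ} (hp : p ∈ Pb c w) : 1 ≤ p := by
  unfold Pb at hp
  rw [Finset.mem_filter, Finset.mem_Icc] at hp
  exact hp.1.1

lemma Tp_eq {β : ℝ → ℝ} {k : ℝ → ℂ} {C0 c w θ T : ℝ} (hB : Bump β k C0) (hθ : 0 < θ)
    (hL : 0 < Real.log T) (hw : 0 < w) : Tp θ T β c w = fun y : ℝ =>
    ∑ x ∈ Finset.Icc 1 (N0 θ (Real.log T) c w) ×ˢ Pb c w,
      ak θ (Real.log T) β c w x * cexp (-(I * lk x * y)) := by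
  funext y
  unfold Tp
  rw [DM_eq hB hθ hL hw]
  unfold Pn
  rw [map_sum, Finset.sum_mul_sum, ← Finset.sum_product']
  refine Finset.sum_congr rfl fun x hx => ?_
  rw [Finset.mem_product, Finset.mem_Icc] at hx
  rw [map_mul, Complex.conj_ofReal, conj_ncpow (Pb_one hx.2), ncpow hx.1.1]
  have h1 : cexp (-(I * (lk x : ℝ) * y)) = cexp (-(I * (Real.log x.1 : ℝ) * y)) *
      cexp (I * (Real.log x.2 : ℝ) * y) := by
    rw [← Complex.exp_add]
    congr 1
    unfold lk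
    push_cast
    ring
  rw [h1]
  unfold ak
  push_cast
  ring

/-! ## Splitting -/

/-- the divisible pairs -/
lemma sum_dvd (N : ℕ) (P : Finset ℕ) (hP : ∀ p ∈ P, 1 ≤ p) (F : ℕ × ℕ → ℂ)
    (hF : ∀ p ∈ P, ∀ j : ℕ, N < p * j → F (p * j, p) = 0) :
    ∑ x ∈ (Finset.Icc 1 N ×ˢ P).filter (fun x => x.2 ∣ x.1), F x =
      ∑ j ∈ Finset.Icc 1 N, ∑ p ∈ P, F (p * j, p) := by
  rw [Finset.sum_filter, Finset.sum_product_right, Finset.sum_comm (s := Finset.Icc 1 N)]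
  refine Finset.sum_congr rfl fun p hp => ?_
  have hp1 := hP p hp
  rw [← Finset.sum_filter]
  symm
  rw [← Finset.sum_filter_of_ne (s := Finset.Icc 1 N) (p := fun j => p * j ≤ N)
    (f := fun j => F (p * j, p))]
  · refine Finset.sum_nbij' (fun j => p * j) (fun k => k / p) ?_ ?_ ?_ ?_ ?_
    · intro j hj
      rw [Finset.mem_filter, Finset.mem_Icc] at hj
      rw [Finset.mem_filter, Finset.mem_Icc]
      exact ⟨⟨Nat.mul_pos hp1 hj.1.1, hj.2⟩, dvd_mul_right p j⟩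
    · intro k hk
      rw [Finset.mem_filter, Finset.mem_Icc] at hk
      rw [Finset.mem_filter, Finset.mem_Icc]
      obtain ⟨⟨h1, h2⟩, h3⟩ := hk
      refine ⟨⟨Nat.div_pos (Nat.le_of_dvd h1 h3) hp1, (Nat.div_le_self k p).trans h2⟩, ?_⟩
      rw [Nat.mul_div_cancel' h3]
      exact h2
    · intro j hj
      exact Nat.mul_div_cancel_left j hp1
    · intro k hk
      rw [Finset.mem_filter, Finset.mem_Icc] at hk
      exact Nat.mul_div_cancel' hk.2
    · intro j hj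
      rfl
  · intro j hj hne
    by_contra h
    exact hne (hF p hp j (by omega))

lemma sqrt_mul_inv {p j : ℕ} (hp : 1 ≤ p) :
    (Real.sqrt (p * j : ℕ))⁻¹ * (Real.sqrt p)⁻¹ = (p : ℝ)⁻¹ * (Real.sqrt j)⁻¹ := by
  have hp0 : (0 : ℝ) ≤ p := by positivity
  rw [Nat.cast_mul, Real.sqrt_mul hp0, mul_inv]
  have : (Real.sqrt p)⁻¹ * (Real.sqrt p)⁻¹ = (p : ℝ)⁻¹ := by
    rw [← mul_inv, Real.mul_self_sqrt hp0]
  rw [← this]
  ring

lemma log_pj {p j : ℕ} (hp : 1 ≤ p) (hj : 1 ≤ j) : Real.log ((p * j : ℕ) : ℝ) - Real.log p = Real.log j := by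
  have hp0 : (p : ℝ) ≠ 0 := by exact_mod_cast (by omega : p ≠ 0)
  have hj0 : (j : ℝ) ≠ 0 := by exact_mod_cast (by omega : j ≠ 0)
  rw [Nat.cast_mul, Real.log_mul hp0 hj0]
  ring

/-- coefficient of a multiple of the primes -/
def bk (θ L : ℝ) (β : ℝ → ℝ) (c w w0 : ℝ) (j : ℕ) : ℂ :=
  hf θ L β c w j * ((((Real.sqrt j)⁻¹ * Real.exp (-(w0 ^ 2 * Real.log j ^ 2 / 2))) : ℝ) : ℂ)

/-- coefficient of a pair, averaged -/
def ck (θ L : ℝ) (β : ℝ → ℝ) (c w w0 : ℝ) (x : ℕ × ℕ) : ℂ :=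
  ak θ L β c w x * (Real.exp (-(w0 ^ 2 * lk x ^ 2 / 2)) : ℂ)

lemma Pb_prime {c w : ℝ} {p : ℕ} (hp : p ∈ Pb c w) : p.Prime := by
  unfold Pb at hp
  rw [Finset.mem_filter] at hp
  exact hp.2.1

lemma Gav_Tp {β : ℝ → ℝ} {k : ℝ → ℂ} {C0 c w θ T w0 : ℝ} (hB : Bump β k C0) (hθ : 0 < θ)
    (hL : 0 < Real.log T) (hw : 0 < w) (hc : 0 ≤ c - w) (hw0 : 0 < w0) (t : ℝ) :
    Gav w0 (Tp θ T β c w) t - (m0 β c w : ℂ) =
      (∑ x ∈ (Finset.Icc 1 (N0 θ (Real.log T) c w) ×ˢ Pb c w).filter (fun x => ¬ x.2 ∣ x.1),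
        ck θ (Real.log T) β c w w0 x * cexp (-(I * lk x * t))) +
      ∑ j ∈ Finset.Icc 2 (N0 θ (Real.log T) c w),
        bk θ (Real.log T) β c w w0 j * cexp (-(I * (Real.log j : ℝ) * t)) := by
  rw [Tp_eq hB hθ hL hw, Gav_sum hw0]
  set N := N0 θ (Real.log T) c w with hN
  have hN1 : 1 ≤ N := by
    rw [hN]
    unfold N0
    refine Nat.mul_pos ?_ (Nn_pos hθ hL)
    rw [Nat.floor_pos]
    exact Real.one_le_exp (by linarith)
  rw [← Finset.sum_filter_add_sum_filter_not (Finset.Icc 1 N ×ˢ Pb c w) (fun x => x.2 ∣ x.1)]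
  rw [sum_dvd N (Pb c w) (fun p hp => Pb_one hp)]
  · have h1 : Finset.Icc 1 N = insert 1 (Finset.Icc 2 N) := by
      ext j
      rw [Finset.mem_insert, Finset.mem_Icc, Finset.mem_Icc]
      omega
    have h2 : (1 : ℕ) ∉ Finset.Icc 2 N := by
      rw [Finset.mem_Icc]
      omega
    rw [h1, Finset.sum_insert h2, ← h1]
    have h3 : ∑ p ∈ Pb c w, ak θ (Real.log T) β c w (p * 1, p) *
        (Real.exp (-(w0 ^ 2 * lk (p * 1, p) ^ 2 / 2)) : ℂ) * cexp (-(I * lk (p * 1, p) * t)) =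
        (m0 β c w : ℂ) := by
      unfold m0
      rw [Complex.ofReal_sum]
      refine Finset.sum_congr rfl fun p hp => ?_
      have e1 : lk (p * 1, p) = 0 := by
        unfold lk
        simp
      rw [e1]
      unfold ak
      simp only [mul_one]
      rw [cf_prime hB hθ hL hw hc (Pb_prime hp)]
      have e2 : ((Real.sqrt p)⁻¹ * (Real.sqrt p)⁻¹ : ℝ) = (p : ℝ)⁻¹ := by
        rw [← mul_inv, Real.mul_self_sqrt (by positivity)]
      rw [e2]
      simp
      ring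
    have h4 : ∑ j ∈ Finset.Icc 2 N, ∑ p ∈ Pb c w, ak θ (Real.log T) β c w (p * j, p) *
        (Real.exp (-(w0 ^ 2 * lk (p * j, p) ^ 2 / 2)) : ℂ) * cexp (-(I * lk (p * j, p) * t)) =
        ∑ j ∈ Finset.Icc 2 N, bk θ (Real.log T) β c w w0 j * cexp (-(I * (Real.log j : ℝ) * t)) := by
      refine Finset.sum_congr rfl fun j hj => ?_
      have hj1 : 1 ≤ j := by
        rw [Finset.mem_Icc] at hj
        omega
      unfold bk hf
      rw [Finset.sum_mul, Finset.sum_mul]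
      refine Finset.sum_congr rfl fun p hp => ?_
      have e1 : lk (p * j, p) = Real.log j := log_pj (Pb_one hp) hj1
      rw [e1]
      unfold ak
      simp only
      rw [sqrt_mul_inv (Pb_one hp)]
      push_cast
      ring
    rw [h3, h4]
    unfold ck
    ring
  · intro p hp j hj
    unfold ak
    simp only
    rw [cf_gt hB hθ hL hw hj]
    simp

/-! ## Spacing -/

lemma log_gap {a b M : ℕ} (ha : 1 ≤ a) (hb : 1 ≤ b) (haM : a ≤ M) (hbM : b ≤ M) (hab : a ≠ b) :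
    1 / (M : ℝ) ≤ |Real.log a - Real.log b| := by
  wlog h : b < a generalizing a b
  · rw [abs_sub_comm]
    exact this hb ha hbM haM (Ne.symm hab) (by omega)
  have ha0 : (0 : ℝ) < a := by exact_mod_cast ha
  have hb0 : (0 : ℝ) < b := by exact_mod_cast hb
  have h1 : Real.log ((b : ℝ) / a) ≤ (b : ℝ) / a - 1 := Real.log_le_sub_one_of_pos (by positivity)
  rw [Real.log_div hb0.ne' ha0.ne'] at h1
  have h2 : (b : ℝ) + 1 ≤ a := by exact_mod_cast h
  have h3 : 1 / (M : ℝ) ≤ 1 / (a : ℝ) := by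
    apply one_div_le_one_div_of_le ha0
    exact_mod_cast haM
  have h4 : 1 / (a : ℝ) ≤ 1 - (b : ℝ) / a := by
    rw [div_le_iff₀ ha0]
    have : (1 - (b : ℝ) / a) * a = a - b := by field_simp
    rw [this]
    linarith
  refine h3.trans (h4.trans (le_trans ?_ (le_abs_self _)))
  linarith

lemma lk_gap {E N : ℕ} {x y : ℕ × ℕ} (hx1 : 1 ≤ x.1) (hxN : x.1 ≤ N) (hy1 : 1 ≤ y.1) (hyN : y.1 ≤ N)
    (hx : x.2.Prime) (hy : y.2.Prime) (hxE : x.2 ≤ E) (hyE : y.2 ≤ E) (hxd : ¬ x.2 ∣ x.1)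
    (hne : x ≠ y) : 1 / ((N * E : ℕ) : ℝ) ≤ |lk x - lk y| := by
  have h1 : x.1 * y.2 ≠ y.1 * x.2 := by
    intro h
    have h2 : x.2 ∣ x.1 * y.2 := by rw [h]; exact dvd_mul_left _ _
    have h3 : x.2 ∣ y.2 := (hx.dvd_mul.mp h2).resolve_left hxd
    have h4 : x.2 = y.2 := (Nat.prime_dvd_prime_iff_eq hx hy).mp h3
    apply hne
    rw [h4] at h
    exact Prod.ext (Nat.eq_of_mul_eq_mul_right hy.pos h) h4
  have h2 := log_gap (M := N * E) (Nat.mul_pos hx1 hy.pos) (Nat.mul_pos hy1 hx.pos)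
    (Nat.mul_le_mul hxN hyE) (Nat.mul_le_mul hyN hxE) h1
  have e0 : ∀ n : ℕ, 1 ≤ n → (n : ℝ) ≠ 0 := by
    intro n hn
    exact_mod_cast (by omega : n ≠ 0)
  have e1 : Real.log ((x.1 * y.2 : ℕ) : ℝ) - Real.log ((y.1 * x.2 : ℕ) : ℝ) = lk x - lk y := by
    unfold lk
    rw [Nat.cast_mul, Nat.cast_mul, Real.log_mul (e0 _ hx1) (e0 _ hy.pos),
      Real.log_mul (e0 _ hy1) (e0 _ hx.pos)]
    ring
  rw [← e1]
  exact h2

/-! ## Mean values -/

lemma mv (h : S_MVT) {ι : Type} (s : Finset ι) (lam : ι → ℝ) (a : ι → ℂ) {δ X Y : ℝ} (hδ : 0 < δ)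
    (hXY : X ≤ Y) (hs : ∀ i ∈ s, ∀ j ∈ s, i ≠ j → δ ≤ |lam i - lam j|)
    (hc : 8 / δ * (1 + Real.log s.card) ≤ Y - X) :
    ∫ t in X..Y, ‖∑ i ∈ s, a i * cexp (-(I * lam i * t))‖ ^ 2 ≤ 2 * (Y - X) * ∑ i ∈ s, ‖a i‖ ^ 2 := by
  have h1 := h ι s lam a δ X Y hδ hXY hs
  have h2 := (abs_le.mp h1).2
  have h3 : 0 ≤ ∑ i ∈ s, ‖a i‖ ^ 2 := Finset.sum_nonneg fun i _ => by positivity
  have h4 := mul_le_mul_of_nonneg_right hc h3
  linarith

lemma norm_ck {β : ℝ → ℝ} {c w θ L w0 : ℝ} (x : ℕ × ℕ) :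
    ‖ck θ L β c w w0 x‖ ^ 2 = ‖cf θ L β c w x.1‖ ^ 2 * β ((Real.log x.2 - c) / w) ^ 2 /
      ((x.1 : ℝ) * x.2) * Real.exp (-(w0 ^ 2 * (Real.log x.1 - Real.log x.2) ^ 2)) := by
  unfold ck ak lk
  rw [norm_mul, norm_mul, norm_mul, Complex.norm_real, Complex.norm_real, Complex.norm_real,
    mul_pow, mul_pow, mul_pow, Real.norm_eq_abs, Real.norm_eq_abs, Real.norm_eq_abs, sq_abs, sq_abs,
    sq_abs, mul_pow, inv_pow, inv_pow, Real.sq_sqrt (by positivity), Real.sq_sqrt (by positivity),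
    ← Real.exp_nat_mul]
  have : ((2 : ℕ) : ℝ) * -(w0 ^ 2 * (Real.log x.1 - Real.log x.2) ^ 2 / 2) =
      -(w0 ^ 2 * (Real.log x.1 - Real.log x.2) ^ 2) := by
    push_cast
    ring
  rw [this, ← mul_inv, ← div_eq_mul_inv]

lemma norm_bk {β : ℝ → ℝ} {c w θ L w0 : ℝ} (j : ℕ) :
    ‖bk θ L β c w w0 j‖ ^ 2 = ‖hf θ L β c w j‖ ^ 2 / j * Real.exp (-(w0 ^ 2 * Real.log j ^ 2)) := by
  unfold bk
  rw [norm_mul, Complex.norm_real, mul_pow, Real.norm_eq_abs, sq_abs, mul_pow, inv_pow,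
    Real.sq_sqrt (by positivity), ← Real.exp_nat_mul]
  have : ((2 : ℕ) : ℝ) * -(w0 ^ 2 * Real.log j ^ 2 / 2) = -(w0 ^ 2 * Real.log j ^ 2) := by
    push_cast
    ring
  rw [this, div_eq_mul_inv]
  ring

/-- size of the spacing against the length of the interval -/
lemma size {ε L : ℝ} (hε : 0 < ε) (hL1 : 1 ≤ L) (hL : 192 / ε ^ 3 ≤ L) :
    8 * Real.exp ((1 - ε) * L) * (1 + L) ≤ Real.exp L / (2 * L) := by
  have hL0 : 0 < L := by linarith
  have h1 : (ε * L) ^ 3 / (Nat.factorial 3 : ℝ) ≤ Real.exp (ε * L) :=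
    Real.pow_div_factorial_le_exp _ (by positivity) 3
  have h2 : (Nat.factorial 3 : ℝ) = 6 := by norm_num [Nat.factorial]
  rw [h2] at h1
  have h3 : 192 ≤ ε ^ 3 * L := by
    rw [div_le_iff₀ (by positivity)] at hL
    linarith
  have h4 : 32 * L ^ 2 ≤ Real.exp (ε * L) := by
    have : 192 * L ^ 2 ≤ ε ^ 3 * L * L ^ 2 := mul_le_mul_of_nonneg_right h3 (by positivity)
    have e : (ε * L) ^ 3 = ε ^ 3 * L * L ^ 2 := by ring
    rw [e] at h1
    linarith
  have h5 : Real.exp L = Real.exp ((1 - ε) * L) * Real.exp (ε * L) := by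
    rw [← Real.exp_add]
    congr 1
    ring
  rw [le_div_iff₀ (by positivity), h5]
  have h6 : 0 < Real.exp ((1 - ε) * L) := Real.exp_pos _
  have h7 : 8 * (1 + L) * (2 * L) ≤ 32 * L ^ 2 := by nlinarith
  calc 8 * Real.exp ((1 - ε) * L) * (1 + L) * (2 * L) =
      Real.exp ((1 - ε) * L) * (8 * (1 + L) * (2 * L)) := by ring
    _ ≤ Real.exp ((1 - ε) * L) * Real.exp (ε * L) :=
      mul_le_mul_of_nonneg_left (h7.trans h4) h6.le

theorem l2 (h : S_MVT) : S_L2 := by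
  intro β k C0 hB ε hε
  refine ⟨min (1 / 16) (ε / 4), by positivity, ?_⟩
  intro θ hθ hθ0
  have hθε : θ ≤ ε / 4 := hθ0.trans (min_le_right _ _)
  refine ⟨Real.exp (max 3 (192 / ε ^ 3)), ?_, ?_⟩
  · have h1 : Real.exp 3 ≤ Real.exp (max 3 (192 / ε ^ 3)) := Real.exp_le_exp.mpr (le_max_left _ _)
    have h2 : (10 : ℝ) ≤ Real.exp 3 := by
      have h3 : Real.exp 3 = Real.exp 1 ^ 3 := by
        rw [← Real.exp_nat_mul]
        norm_num
      have h4 := Real.exp_one_gt_d9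
      have h5 : (2.7 : ℝ) ^ 3 ≤ Real.exp 1 ^ 3 := pow_le_pow_left₀ (by norm_num) (by linarith) 3
      rw [h3]
      norm_num at h5
      linarith
    linarith
  · intro T c w w0 hT hBd hw0 hw01
    have hT0 : 0 < T := (Real.exp_pos _).trans_le hT
    have hLm : max 3 (192 / ε ^ 3) ≤ Real.log T := (Real.le_log_iff_exp_le hT0).mpr hT
    obtain ⟨L, hLe⟩ : ∃ L, L = Real.log T := ⟨_, rfl⟩
    rw [← hLe] at hLm hBd ⊢
    have hL3 : 3 ≤ L := (le_max_left _ _).trans hLm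
    have hLε : 192 / ε ^ 3 ≤ L := (le_max_right _ _).trans hLm
    have hL0 : 0 < L := by linarith
    have hTe : T = Real.exp L := by rw [hLe, Real.exp_log hT0]
    have hw : 0 < w := lt_of_lt_of_le (by have := hBd.ep; positivity) hBd.w1
    have hcw : 0 ≤ c - w := by
      have := hBd.lo
      linarith
    have hhi := hBd.hi
    obtain ⟨N, hN⟩ : ∃ N, N = N0 θ L c w := ⟨_, rfl⟩
    obtain ⟨E, hE⟩ : ∃ E, E = ⌊Real.exp (c + w)⌋₊ := ⟨_, rfl⟩
    have hE1 : 1 ≤ E := by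
      rw [hE, Nat.one_le_floor_iff]
      exact Real.one_le_exp (by linarith)
    have hN1 : 1 ≤ N := by
      rw [hN]
      unfold N0
      rw [← hE]
      exact Nat.mul_pos hE1 (Nn_pos hθ hL0)
    have hEr : (E : ℝ) ≤ Real.exp ((1 / 2 - ε) * L) := by
      rw [hE]
      refine (Nat.floor_le (Real.exp_pos _).le).trans ?_
      exact Real.exp_le_exp.mpr hhi
    have hNr : (N : ℝ) ≤ Real.exp ((1 / 2 - ε) * L) * Real.exp (2 * θ * L) := by
      rw [hN]
      unfold N0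
      rw [← hE, Nat.cast_mul]
      exact mul_le_mul hEr Nn_le (by positivity) (by positivity)
    have hM : ((N * E : ℕ) : ℝ) ≤ Real.exp ((1 - ε) * L) := by
      rw [Nat.cast_mul]
      calc (N : ℝ) * E ≤ (Real.exp ((1 / 2 - ε) * L) * Real.exp (2 * θ * L)) *
            Real.exp ((1 / 2 - ε) * L) := mul_le_mul hNr hEr (by positivity) (by positivity)
        _ = Real.exp ((1 / 2 - ε) * L + 2 * θ * L + (1 / 2 - ε) * L) := by
          rw [Real.exp_add, Real.exp_add]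
        _ ≤ Real.exp ((1 - ε) * L) := by
          apply Real.exp_le_exp.mpr
          nlinarith
    have hM1 : 1 ≤ N * E := Nat.mul_pos hN1 hE1
    have hM0 : (0 : ℝ) < ((N * E : ℕ) : ℝ) := by exact_mod_cast hM1
    obtain ⟨δ, hδe⟩ : ∃ δ : ℝ, δ = 1 / ((N * E : ℕ) : ℝ) := ⟨_, rfl⟩
    have hδ : 0 < δ := by
      rw [hδe]
      positivity
    -- size
    have hsz : ∀ n : ℕ, n ≤ N * E → 8 / δ * (1 + Real.log n) ≤ T / (2 * L) := by
      intro n hn
      have h1 : 8 / δ ≤ 8 * Real.exp ((1 - ε) * L) := by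
        rw [hδe]
        have : 8 / (1 / ((N * E : ℕ) : ℝ)) = 8 * ((N * E : ℕ) : ℝ) := by field_simp
        rw [this]
        linarith
      have h2 : Real.log n ≤ L := by
        rcases Nat.eq_zero_or_pos n with rfl | hn0
        · simp
          linarith
        · have h3 : (0 : ℝ) < n := by exact_mod_cast hn0
          rw [Real.log_le_iff_le_exp h3]
          have h4 : (n : ℝ) ≤ ((N * E : ℕ) : ℝ) := by exact_mod_cast hn
          refine h4.trans (hM.trans ?_)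
          apply Real.exp_le_exp.mpr
          nlinarith
      have h3 : 0 ≤ 8 / δ := by positivity
      have h4 : 8 / δ * (1 + Real.log n) ≤ 8 / δ * (1 + L) :=
        mul_le_mul_of_nonneg_left (by linarith) h3
      have h5 : 8 / δ * (1 + L) ≤ 8 * Real.exp ((1 - ε) * L) * (1 + L) :=
        mul_le_mul_of_nonneg_right h1 (by linarith)
      have h6 := size hε (by linarith) hLε
      rw [hTe]
      linarith
    have hXY : (T + T / (4 * L)) - (T - T / (4 * L)) = T / (2 * L) := by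
      field_simp
      ring
    have hXY0 : T - T / (4 * L) ≤ T + T / (4 * L) := by
      have : 0 < T / (4 * L) := by positivity
      linarith
    obtain ⟨S, hS⟩ : ∃ S : Finset (ℕ × ℕ), S = (Finset.Icc 1 N ×ˢ Pb c w).filter (fun x => ¬ x.2 ∣ x.1) :=
      ⟨_, rfl⟩
    have hPE : ∀ p ∈ Pb c w, p ≤ E := by
      intro p hp
      unfold Pb at hp
      rw [Finset.mem_filter, Finset.mem_Icc, ← hE] at hp
      exact hp.1.2
    have hcardP : (Pb c w).card ≤ E := by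
      have : (Pb c w).card ≤ (Finset.Icc 1 E).card := by
        apply Finset.card_le_card
        intro p hp
        rw [Finset.mem_Icc]
        exact ⟨Pb_one hp, hPE p hp⟩
      simpa using this
    have hcardS : S.card ≤ N * E := by
      rw [hS]
      refine (Finset.card_filter_le _ _).trans ?_
      rw [Finset.card_product, Nat.card_Icc]
      exact Nat.mul_le_mul (by omega) hcardP
    -- the two mean values
    have hA := mv h S lk (ck θ L β c w w0) (X := T - T / (4 * L)) (Y := T + T / (4 * L)) hδ hXY0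
      (by
        intro x hx y hy hne
        rw [hS, Finset.mem_filter, Finset.mem_product, Finset.mem_Icc] at hx hy
        rw [hδe]
        exact lk_gap hx.1.1.1 hx.1.1.2 hy.1.1.1 hy.1.1.2 (Pb_prime hx.1.2) (Pb_prime hy.1.2)
          (hPE _ hx.1.2) (hPE _ hy.1.2) hx.2 hne)
      (by
        rw [hXY]
        exact hsz _ hcardS)
    have hBm := mv h (Finset.Icc 2 N) (fun j : ℕ => Real.log j) (bk θ L β c w w0)
      (X := T - T / (4 * L)) (Y := T + T / (4 * L)) hδ hXY0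
      (by
        intro x hx y hy hne
        rw [Finset.mem_Icc] at hx hy
        rw [hδe]
        have hNE : N ≤ N * E := Nat.le_mul_of_pos_right N hE1
        exact log_gap (by omega) (by omega) (by omega) (by omega) hne)
      (by
        rw [hXY]
        apply hsz
        rw [Nat.card_Icc]
        have hNE : N ≤ N * E := Nat.le_mul_of_pos_right N hE1
        omega)
    rw [hXY] at hA hBm
    have e2 : 2 * (T / (2 * L)) = T / L := by field_simp
    rw [e2] at hA hBm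
    have hTL : 0 < T / L := by positivity
    -- coefficient sums
    have hsA : ∑ x ∈ S, ‖ck θ L β c w w0 x‖ ^ 2 ≤ ∑ p ∈ Pb c w, ∑ j ∈ Finset.Icc 1 N,
        ‖cf θ L β c w j‖ ^ 2 * β ((Real.log p - c) / w) ^ 2 / ((j : ℝ) * p) *
        Real.exp (-(w0 ^ 2 * (Real.log j - Real.log p) ^ 2)) := by
      calc ∑ x ∈ S, ‖ck θ L β c w w0 x‖ ^ 2 ≤ ∑ x ∈ Finset.Icc 1 N ×ˢ Pb c w, ‖ck θ L β c w w0 x‖ ^ 2 := by
            rw [hS]
            exact Finset.sum_le_sum_of_subset_of_nonneg (Finset.filter_subset _ _)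
              (fun x _ _ => by positivity)
        _ = _ := by
            rw [Finset.sum_product_right]
            refine Finset.sum_congr rfl fun p _ => Finset.sum_congr rfl fun j _ => ?_
            rw [norm_ck]
    have hsB : ∑ j ∈ Finset.Icc 2 N, ‖bk θ L β c w w0 j‖ ^ 2 = ∑ j ∈ Finset.Icc 2 N,
        ‖hf θ L β c w j‖ ^ 2 / j * Real.exp (-(w0 ^ 2 * Real.log j ^ 2)) :=
      Finset.sum_congr rfl fun j _ => norm_bk j
    rw [hsB] at hBm
    have hA' := hA.trans (mul_le_mul_of_nonneg_left hsA hTL.le)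
    -- the integral
    have hfle : ∀ t : ℝ, ‖Gav w0 (Tp θ T β c w) t - (m0 β c w : ℂ)‖ ^ 2 ≤
        2 * ‖∑ x ∈ S, ck θ L β c w w0 x * cexp (-(I * lk x * t))‖ ^ 2 +
        2 * ‖∑ j ∈ Finset.Icc 2 N, bk θ L β c w w0 j * cexp (-(I * (Real.log j : ℝ) * t))‖ ^ 2 := by
      intro t
      have h1 := Gav_Tp (T := T) hB hθ (by rw [← hLe]; exact hL0) hw hcw hw0 t
      rw [← hLe, ← hN, ← hS] at h1
      rw [h1]
      have h2 := norm_add_le (∑ x ∈ S, ck θ L β c w w0 x * cexp (-(I * lk x * t)))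
        (∑ j ∈ Finset.Icc 2 N, bk θ L β c w w0 j * cexp (-(I * (Real.log j : ℝ) * t)))
      have h3 := pow_le_pow_left₀ (norm_nonneg _) h2 2
      nlinarith [sq_nonneg (‖∑ x ∈ S, ck θ L β c w w0 x * cexp (-(I * lk x * t))‖ -
        ‖∑ j ∈ Finset.Icc 2 N, bk θ L β c w w0 j * cexp (-(I * (Real.log j : ℝ) * t))‖)]
    have hcA : Continuous fun t : ℝ => ‖∑ x ∈ S, ck θ L β c w w0 x * cexp (-(I * lk x * t))‖ ^ 2 := by
      fun_prop
    have hcB : Continuous fun t : ℝ =>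
        ‖∑ j ∈ Finset.Icc 2 N, bk θ L β c w w0 j * cexp (-(I * (Real.log j : ℝ) * t))‖ ^ 2 := by
      fun_prop
    have hcG : Continuous fun t : ℝ => ‖Gav w0 (Tp θ T β c w) t - (m0 β c w : ℂ)‖ ^ 2 := by
      have h1 : (fun t : ℝ => Gav w0 (Tp θ T β c w) t - (m0 β c w : ℂ)) = fun t : ℝ =>
          (∑ x ∈ S, ck θ L β c w w0 x * cexp (-(I * lk x * t))) +
          ∑ j ∈ Finset.Icc 2 N, bk θ L β c w w0 j * cexp (-(I * (Real.log j : ℝ) * t)) := by
        funext t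
        have h1 := Gav_Tp (T := T) hB hθ (by rw [← hLe]; exact hL0) hw hcw hw0 t
        rw [← hLe, ← hN, ← hS] at h1
        exact h1
      have h2 : Continuous fun t : ℝ => Gav w0 (Tp θ T β c w) t - (m0 β c w : ℂ) := by
        rw [h1]
        fun_prop
      exact h2.norm.pow 2
    rw [← hN]
    calc ∫ t in (T - T / (4 * L))..(T + T / (4 * L)), ‖Gav w0 (Tp θ T β c w) t - (m0 β c w : ℂ)‖ ^ 2
        ≤ ∫ t in (T - T / (4 * L))..(T + T / (4 * L)),
          (2 * ‖∑ x ∈ S, ck θ L β c w w0 x * cexp (-(I * lk x * t))‖ ^ 2 +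
          2 * ‖∑ j ∈ Finset.Icc 2 N, bk θ L β c w w0 j * cexp (-(I * (Real.log j : ℝ) * t))‖ ^ 2) := by
          apply intervalIntegral.integral_mono_on hXY0 (hcG.intervalIntegrable _ _)
            (((hcA.const_mul 2).add (hcB.const_mul 2)).intervalIntegrable _ _)
          intro t _
          exact hfle t
      _ = 2 * (∫ t in (T - T / (4 * L))..(T + T / (4 * L)),
            ‖∑ x ∈ S, ck θ L β c w w0 x * cexp (-(I * lk x * t))‖ ^ 2) +
          2 * ∫ t in (T - T / (4 * L))..(T + T / (4 * L)),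
            ‖∑ j ∈ Finset.Icc 2 N, bk θ L β c w w0 j * cexp (-(I * (Real.log j : ℝ) * t))‖ ^ 2 := by
          rw [intervalIntegral.integral_add ((hcA.const_mul 2).intervalIntegrable _ _)
            ((hcB.const_mul 2).intervalIntegrable _ _), intervalIntegral.integral_const_mul,
            intervalIntegral.integral_const_mul]
      _ ≤ _ := by
          have h1 : 0 ≤ ∑ p ∈ Pb c w, ∑ j ∈ Finset.Icc 1 N,
              ‖cf θ L β c w j‖ ^ 2 * β ((Real.log p - c) / w) ^ 2 / ((j : ℝ) * p) *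
              Real.exp (-(w0 ^ 2 * (Real.log j - Real.log p) ^ 2)) :=
            Finset.sum_nonneg fun p _ => Finset.sum_nonneg fun j _ => by positivity
          have h2 : 0 ≤ ∑ j ∈ Finset.Icc 2 N, ‖hf θ L β c w j‖ ^ 2 / j *
              Real.exp (-(w0 ^ 2 * Real.log j ^ 2)) :=
            Finset.sum_nonneg fun j _ => by positivity
          have h3 := mul_nonneg hTL.le h1
          have h4 := mul_nonneg hTL.le h2
          nlinarith

end

end Pool.Agent.H115.HD
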